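import Mathlib
import Pool.Agent.H82.LuzC

set_option autoImplicit false

namespace Pool.Agent.Results.MP_44eb6b_gt.CHCounter

/-- `C_p(X)`: continuous real functions with the topology of pointwise convergence -/
abbrev Cp (X : Type) [TopologicalSpace X] : Type := {f : X → ℝ // Continuous f}

/-- every closed subspace is separable -/
def ClosedSeparable (Z : Type) [TopologicalSpace Z] : Prop :=
  ∀ F : Set Z, IsClosed F → TopologicalSpace.SeparableSpace F

theorem result : Cardinal.continuum.{0} = Cardinal.aleph 1 →
    ∃ (X : Type) (_ : TopologicalSpace X), T35Space X ∧ ClosedSeparable (ℕ → X) ∧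
      ¬ ClosedSeparable (Cp (Cp X)) := by
  intro CH
  obtain ⟨X, _, h1, h2, F, h3, h4⟩ := Pool.Agent.H82.Luz.main CH
  exact ⟨X, inferInstance, h1, h2, fun h => h4 (h F h3)⟩

end Pool.Agent.Results.MP_44eb6b_gt.CHCounter
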